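import Mathlib

/-!
# Finiteness of the irreducible solutions of the modular quiddity equation

For `N ≥ 2` the equation `M_n(a_1, …, a_n) = ± Id` over `ℤ/Nℤ` has only finitely many irreducible
solutions (of all sizes together).  The size of an irreducible solution is at most `4`, or at most
half of the number of pairs `(a, b)` of elements of `ℤ/Nℤ` which generate the unit ideal.

Proof.  Let `r_j` be the first row of `M_j(a_1, …, a_j)`.  The upper left entry of the matrix of the
factor `a_{i+1}, …, a_j` is the determinant of the rows `r_j` and `r_{i-1}`.  If `r_i = ± r_j` then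
this entry is `± 1`, and a solution with such a factor of length at most `n - 3` is a sum of two
shorter solutions.
-/

set_option autoImplicit false

namespace Pool.Agent.Results.MP_762e7e_co.FinitelyMany

open Matrix

variable {R : Type*} [CommRing R]

/-- The matrix `(a, -1; 1, 0)`. -/
def E (a : R) : Matrix (Fin 2) (Fin 2) R := !![a, -1; 1, 0]

/-- `M [a_1, …, a_n]` is the product `E a_n ⋯ E a_2 E a_1`. -/
def M : List R → Matrix (Fin 2) (Fin 2) R
  | [] => 1
  | a :: l => M l * E a

/-- The tuple `c` is a solution: `M c` is `Id` or `- Id`. -/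
def IsSolution (c : List R) : Prop := M c = 1 ∨ M c = -1

/-- The sum `(a_1 + b_m, a_2, …, a_{n-1}, a_n + b_1, b_2, …, b_{m-1})` of an `n`-tuple `a` and an
`m`-tuple `b`. -/
def oplus (a b : List R) : List R :=
  (a.headD 0 + b.getLastD 0) ::
    (a.tail.dropLast ++ (a.getLastD 0 + b.headD 0) :: b.tail.dropLast)

/-- `b` is a cyclic rotation of `a` or of the reversal of `a`. -/
def Equivalent (a b : List R) : Prop := b.IsRotated a ∨ b.IsRotated a.reverse

/-- `c` is equivalent to a sum of two solutions of size at least `3`. -/
def IsReducible (c : List R) : Prop :=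
  ∃ a b : List R, IsSolution a ∧ IsSolution b ∧ 3 ≤ a.length ∧ 3 ≤ b.length ∧
    Equivalent c (oplus a b)

/-- `c` is an irreducible solution (of size at least `3`). -/
def IsIrreducible (c : List R) : Prop := IsSolution c ∧ 3 ≤ c.length ∧ ¬ IsReducible c

/-! ### Matrices -/

theorem M_append (a b : List R) : M (a ++ b) = M b * M a := by
  induction a with
  | nil => simp [M]
  | cons x a ih => rw [List.cons_append, M, M, ih, Matrix.mul_assoc]

theorem M_single (x : R) : M [x] = E x := by simp [M]

theorem det_E (a : R) : (E a).det = 1 := by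
  rw [E, Matrix.det_fin_two_of]; ring

theorem det_M (c : List R) : (M c).det = 1 := by
  induction c with
  | nil => simp [M]
  | cons x a ih => rw [M, Matrix.det_mul, ih, det_E, one_mul]

theorem E_mul_inv (b : R) : E b * !![0, 1; -1, b] = 1 := by
  ext i j; fin_cases i <;> fin_cases j <;> simp [E]

theorem E_add (x y : R) : E (x + y) = -(E x * E 0 * E y) := by
  ext i j; fin_cases i <;> fin_cases j <;> simp [E, Matrix.mul_apply, Fin.sum_univ_two]

theorem E_zero_sq : (E (0 : R)) * E 0 = -1 := by
  ext i j; fin_cases i <;> fin_cases j <;> simp [E, Matrix.mul_apply, Fin.sum_univ_two]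

/-- If `W` has determinant `1` and upper left entry `e = ± 1` then it can be completed. -/
theorem complete (W : Matrix (Fin 2) (Fin 2) R) (hW : W.det = 1) (e : R) (he : e * e = 1)
    (h : W 0 0 = e) : E (e * W 1 0) * W * E (-(e * W 0 1)) = (-e) • 1 := by
  rw [Matrix.det_fin_two, h] at hW
  have h1 : W 1 1 = e * (1 + W 0 1 * W 1 0) := by
    linear_combination e * hW + (-(W 1 1)) * he
  have h2 : W = !![e, W 0 1; W 1 0, W 1 1] := by
    rw [← h]; exact Matrix.eta_fin_two W
  generalize W 0 1 = p at *
  generalize W 1 0 = q at *
  generalize W 1 1 = r at *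
  subst h1
  rw [h2]
  ext i j
  fin_cases i <;> fin_cases j <;>
    simp [E, Matrix.mul_apply, Fin.sum_univ_two]
  · linear_combination (-(q * p * e)) * he
  · linear_combination (-q) * he
  · linear_combination (-p) * he

/-! ### Rotations -/

theorem isSolution_iff (c : List R) : IsSolution c ↔ ∃ e : R, (e = 1 ∨ e = -1) ∧ M c = e • 1 := by
  unfold IsSolution
  constructor
  · rintro (h | h)
    · exact ⟨1, Or.inl rfl, by rw [h, one_smul]⟩
    · exact ⟨-1, Or.inr rfl, by rw [h]; ext i j; simp⟩
  · rintro ⟨e, (rfl | rfl), h⟩
    · left; rw [h, one_smul]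
    · right; rw [h]; ext i j; simp

theorem isSolution_comm (a b : List R) (h : IsSolution (a ++ b)) : IsSolution (b ++ a) := by
  have key : ∀ e : R, M b * M a = e • 1 → M a * M b = e • 1 := by
    intro e he
    have hdet : IsUnit (M a).det := by rw [det_M]; exact isUnit_one
    have h1 : M a * (M b * M a) * (M a)⁻¹ = e • 1 := by
      rw [he, Matrix.mul_smul, Matrix.mul_one, Matrix.smul_mul, Matrix.mul_nonsing_inv _ hdet]
    rw [← h1, ← Matrix.mul_assoc, Matrix.mul_assoc _ _ (M a)⁻¹, Matrix.mul_nonsing_inv _ hdet,
      Matrix.mul_one]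
  rw [isSolution_iff] at h ⊢
  obtain ⟨e, he, h⟩ := h
  rw [M_append] at h
  exact ⟨e, he, by rw [M_append]; exact key e h⟩

/-! ### Chords -/

omit [CommRing R] in
theorem exists_ends (l : List R) (h : 2 ≤ l.length) : ∃ (x y : R) (u : List R),
    l = x :: (u ++ [y]) ∧ u.length = l.length - 2 := by
  match l, h with
  | x :: l', h =>
    have hne : l' ≠ [] := by
      rintro rfl; simp at h
    refine ⟨x, l'.getLast hne, l'.dropLast, ?_, ?_⟩
    · rw [List.dropLast_append_getLast hne]
    · simp only [List.length_dropLast, List.length_cons]; omega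

theorem oplus_cons (x y z t : R) (u w : List R) :
    oplus (x :: (u ++ [y])) (z :: (w ++ [t])) = (x + t) :: (u ++ (y + z) :: w) := by
  have h : ∀ (a b : R) (l : List R), (a :: (l ++ [b])).getLastD 0 = b := by
    intro a b l
    rw [← List.cons_append, List.getLastD_eq_getLast?, List.getLast?_append]
    simp
  unfold oplus
  rw [h, h]
  simp

/-- A factor whose matrix has upper left entry `± 1` splits a solution. -/
theorem reducible_of_factor (p w s : List R) (hsol : IsSolution (p ++ (w ++ s)))
    (hw : 1 ≤ w.length) (hps : 3 ≤ s.length + p.length) (e : R) (he : e = 1 ∨ e = -1)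
    (h : M w 0 0 = e) : IsReducible (p ++ (w ++ s)) := by
  have hee : e * e = 1 := by rcases he with rfl | rfl <;> ring
  obtain ⟨x, y, u, hxy, hu⟩ := exists_ends (s ++ p) (by rw [List.length_append]; omega)
  set b1 : R := -(e * M w 0 1) with hb1
  set bm : R := e * M w 1 0 with hbm
  have hcomp : E bm * M w * E b1 = (-e) • 1 := complete (M w) (det_M w) e hee h
  have hsol' : IsSolution ((s ++ p) ++ w) := by
    have h1 : IsSolution ((w ++ s) ++ p) := isSolution_comm _ _ hsol
    have h2 : IsSolution (w ++ (s ++ p)) := by rw [← List.append_assoc]; exact h1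
    exact isSolution_comm _ _ h2
  refine ⟨(x - bm) :: (u ++ [y - b1]), b1 :: (w ++ [bm]), ?_, ?_, ?_, ?_, ?_⟩
  · -- the first summand is a solution
    obtain ⟨σ, hσ, hM⟩ := (isSolution_iff _).1 hsol'
    rw [hxy] at hM
    have hMw : M (x :: (u ++ [y]) ++ w) = M w * (E y * M u * E x) := by
      rw [M_append, M, M_append, M_single]
    rw [hMw] at hM
    have hy : E y = -(E b1 * E 0 * E (y - b1)) := by
      rw [← E_add]; congr 1; ring
    have hx : E x = -(E (x - bm) * E 0 * E bm) := by
      rw [← E_add]; congr 1; ring
    set A := E (y - b1) * M u * E (x - bm) with hA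
    have hA' : M ((x - bm) :: (u ++ [y - b1])) = A := by
      rw [M, M_append, M_single]
    have h3 : M w * E b1 * E 0 * A * E 0 * E bm = σ • 1 := by
      rw [← hM, hy, hx, hA]
      simp only [Matrix.mul_neg, Matrix.neg_mul, neg_neg, Matrix.mul_assoc]
    have h4 : (-e) • (E 0 * A * E 0 * E bm) = σ • E bm := by
      have : E bm * (M w * E b1 * E 0 * A * E 0 * E bm) = E bm * (σ • 1) := by rw [h3]
      rw [Matrix.mul_smul, Matrix.mul_one] at this
      rw [← this]
      have h5 : E bm * (M w * E b1 * E 0 * A * E 0 * E bm) =
          (E bm * M w * E b1) * (E 0 * A * E 0 * E bm) := by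
        simp only [Matrix.mul_assoc]
      rw [h5, hcomp, Matrix.smul_mul, Matrix.one_mul]
    have h6 : (-e) • (E 0 * A * E 0) = (σ • 1 : Matrix (Fin 2) (Fin 2) R) := by
      have : (-e) • (E 0 * A * E 0 * E bm) * !![0, 1; -1, bm] = σ • E bm * !![0, 1; -1, bm] := by
        rw [h4]
      rw [Matrix.smul_mul, Matrix.smul_mul, Matrix.mul_assoc (E 0 * A * E 0), E_mul_inv,
        Matrix.mul_one] at this
      exact this
    have h7 : A = (e * σ) • 1 := by
      have h8 : E 0 * A * E 0 = (-(e * σ)) • 1 := by
        have : (-e) • ((-e) • (E 0 * A * E 0)) = (-e) • (σ • (1 : Matrix (Fin 2) (Fin 2) R)) := by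
          rw [h6]
        rw [smul_smul, smul_smul] at this
        have h9 : (-e) * (-e) = 1 := by linear_combination hee
        rw [h9, one_smul] at this
        rw [this]; congr 1; ring
      have h10 : E 0 * (E 0 * A * E 0) * E 0 = A := by
        have : E 0 * (E 0 * A * E 0) * E 0 = (E 0 * E 0) * A * (E 0 * E 0) := by
          simp only [Matrix.mul_assoc]
        rw [this, E_zero_sq]; simp
      rw [← h10, h8, Matrix.mul_smul, Matrix.mul_one, Matrix.smul_mul, E_zero_sq]
      ext i j; simp
    rw [isSolution_iff]
    refine ⟨e * σ, ?_, by rw [hA', h7]⟩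
    rcases he with rfl | rfl <;> rcases hσ with rfl | rfl <;> simp
  · rw [isSolution_iff]
    refine ⟨-e, by rcases he with rfl | rfl <;> simp, ?_⟩
    rw [M, M_append, M_single, hcomp]
  · simp only [List.length_cons, List.length_append, List.length_nil]
    rw [List.length_append] at hu
    omega
  · simp only [List.length_cons, List.length_append, List.length_nil]
    omega
  · left
    have hop : oplus ((x - bm) :: (u ++ [y - b1])) (b1 :: (w ++ [bm])) = (s ++ p) ++ w := by
      rw [hxy, oplus_cons]
      simp
    rw [hop]
    have h1 : (p ++ (w ++ s)).IsRotated ((w ++ s) ++ p) := List.isRotated_append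
    have h2 : (w ++ (s ++ p)).IsRotated ((s ++ p) ++ w) := List.isRotated_append
    rw [List.append_assoc] at h1
    exact (h1.trans h2).symm

/-! ### Rows -/

theorem E_mul_row (a : R) (X : Matrix (Fin 2) (Fin 2) R) (k : Fin 2) : (E a * X) 1 k = X 0 k := by
  simp [E, Matrix.mul_apply, Fin.sum_univ_two]

theorem take_succ_row (c : List R) (j : ℕ) (hj : j < c.length) (k : Fin 2) :
    M (c.take (j + 1)) 1 k = M (c.take j) 0 k := by
  rw [List.take_succ_eq_append_getElem hj, M_append, M_single, E_mul_row]

theorem factor (c : List R) (i j : ℕ) (hij : i ≤ j) :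
    M ((c.take j).drop i) 0 0 =
      M (c.take j) 0 0 * M (c.take i) 1 1 - M (c.take j) 0 1 * M (c.take i) 1 0 := by
  have h1 : M (c.take j) = M ((c.take j).drop i) * M (c.take i) := by
    conv_lhs => rw [← List.take_append_drop i (c.take j)]
    rw [M_append, List.take_take, min_eq_left hij]
  have h2 := det_M (c.take i)
  rw [Matrix.det_fin_two] at h2
  rw [h1]
  generalize M ((c.take j).drop i) = W
  simp only [Matrix.mul_apply, Fin.sum_univ_two]
  linear_combination (-(W 0 0)) * h2

theorem chord (c : List R) (hc : IsSolution c) (i j : ℕ) (hij : i < j) (hj : j ≤ c.length)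
    (hlen : j - i + 3 ≤ c.length) (e : R) (he : e = 1 ∨ e = -1)
    (h : M ((c.take j).drop i) 0 0 = e) : IsReducible c := by
  have hdec : c = c.take i ++ ((c.take j).drop i ++ c.drop j) := by
    conv_lhs => rw [← List.take_append_drop j c]
    rw [← List.append_assoc]
    congr 1
    conv_lhs => rw [← List.take_append_drop i (c.take j)]
    rw [List.take_take, min_eq_left hij.le]
  have hl1 : ((c.take j).drop i).length = j - i := by
    rw [List.length_drop, List.length_take, min_eq_left hj]
  have hl2 : (c.drop j).length = c.length - j := List.length_drop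
  have hl3 : (c.take i).length = i := by
    rw [List.length_take, min_eq_left (by omega)]
  rw [hdec] at hc ⊢
  exact reducible_of_factor _ _ _ hc (by omega) (by omega) e he h

theorem rows_ne (c : List R) [Nontrivial R] (hc : IsIrreducible c) (h5 : 5 ≤ c.length) (i j : ℕ)
    (hij : i < j) (hj : j < c.length) (e : R) (he : e = 1 ∨ e = -1)
    (h0 : M (c.take i) 0 0 = e * M (c.take j) 0 0)
    (h1 : M (c.take i) 0 1 = e * M (c.take j) 0 1) : False := by
  have hee : e * e = 1 := by rcases he with rfl | rfl <;> ring
  have h0' : M (c.take j) 0 0 = e * M (c.take i) 0 0 := by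
    rw [h0]; linear_combination (-(M (c.take j) 0 0)) * hee
  have h1' : M (c.take j) 0 1 = e * M (c.take i) 0 1 := by
    rw [h1]; linear_combination (-(M (c.take j) 0 1)) * hee
  by_cases hA : j - i + 3 ≤ c.length
  · apply hc.2.2
    refine chord c hc.1 i j hij hj.le hA e he ?_
    rw [factor c i j hij.le, h0', h1']
    have h2 := det_M (c.take i)
    rw [Matrix.det_fin_two] at h2
    linear_combination e * h2
  · by_cases hB : j - i + 2 = c.length
    · apply hc.2.2
      refine chord c hc.1 (i + 2) j (by omega) hj.le (by omega) (-e) ?_ ?_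
      · rcases he with rfl | rfl
        · right; rfl
        · left; rw [neg_neg]
      · rw [factor c (i + 2) j (by omega), take_succ_row c (i + 1) (by omega),
          take_succ_row c (i + 1) (by omega), h0', h1',
          ← take_succ_row c i (by omega), ← take_succ_row c i (by omega)]
        have h2 := det_M (c.take (i + 1))
        rw [Matrix.det_fin_two] at h2
        linear_combination (-e) * h2
    · have hi : i = 0 := by omega
      have hj' : j + 1 = c.length := by omega
      subst hi
      have h3 : M c 1 0 = M (c.take j) 0 0 := by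
        have := take_succ_row c j hj 0
        rwa [hj', List.take_length] at this
      have h4 : M c 1 0 = 0 := by
        rcases hc.1 with h | h <;> rw [h] <;> simp
      rw [← h3, h4, List.take_zero, M, mul_zero] at h0
      simp at h0

theorem row_coprime (c : List R) (j : ℕ) :
    IsCoprime (M (c.take j) 0 0) (M (c.take j) 0 1) := by
  refine ⟨M (c.take j) 1 1, -(M (c.take j) 1 0), ?_⟩
  have h2 := det_M (c.take j)
  rw [Matrix.det_fin_two] at h2
  linear_combination h2

/-- The size of an irreducible solution over `ℤ/Nℤ`. -/
theorem length_le (N : ℕ) (hN : 2 ≤ N) (c : List (ZMod N)) (hc : IsIrreducible c) :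
    c.length ≤ 4 ∨
      2 * c.length ≤ Nat.card {v : ZMod N × ZMod N // IsCoprime v.1 v.2} := by
  haveI : NeZero N := ⟨by omega⟩
  haveI : Fact (1 < N) := ⟨by omega⟩
  by_cases h4 : c.length ≤ 4
  · exact Or.inl h4
  right
  have h5 : 5 ≤ c.length := by omega
  have key : ∀ (i j : Fin c.length) (e : ZMod N), (e = 1 ∨ e = -1) →
      M (c.take i) 0 0 = e * M (c.take j) 0 0 → M (c.take i) 0 1 = e * M (c.take j) 0 1 →
      i = j := by
    intro i j e he h0 h1
    have hee : e * e = 1 := by rcases he with rfl | rfl <;> ring
    rcases lt_trichotomy (i : ℕ) j with h | h | h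
    · exact (rows_ne c hc h5 i j h j.2 e he h0 h1).elim
    · exact Fin.ext h
    · refine (rows_ne c hc h5 j i h i.2 e he ?_ ?_).elim
      · rw [h0]; linear_combination (-(M (c.take j) 0 0)) * hee
      · rw [h1]; linear_combination (-(M (c.take j) 0 1)) * hee
  by_cases h2 : N = 2
  · exfalso
    subst h2
    have hinj : Function.Injective
        (fun i : Fin c.length => (M (c.take i) 0 0, M (c.take i) 0 1)) := by
      intro i j hij
      simp only [Prod.mk.injEq] at hij
      exact key i j 1 (Or.inl rfl) (by rw [one_mul]; exact hij.1) (by rw [one_mul]; exact hij.2)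
    have := Fintype.card_le_of_injective _ hinj
    rw [Fintype.card_fin, Fintype.card_prod, ZMod.card] at this
    omega
  · have h20 : (2 : ZMod N) ≠ 0 := by
      intro h
      have h' : ((2 : ℕ) : ZMod N) = 0 := by exact_mod_cast h
      rw [ZMod.natCast_eq_zero_iff] at h'
      have := Nat.le_of_dvd (by norm_num) h'
      omega
    let f : Fin c.length × Bool → {v : ZMod N × ZMod N // IsCoprime v.1 v.2} := fun p =>
      match p with
      | (i, true) => ⟨(M (c.take i) 0 0, M (c.take i) 0 1), row_coprime c i⟩
      | (i, false) => ⟨(-M (c.take i) 0 0, -M (c.take i) 0 1), (row_coprime c i).neg_neg⟩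
    have hf : Function.Injective f := by
      rintro ⟨i, b⟩ ⟨j, b'⟩ h
      cases b <;> cases b' <;> simp only [f, Subtype.mk.injEq, Prod.mk.injEq] at h
      · have := key i j 1 (Or.inl rfl) (by linear_combination (-1) * h.1)
          (by linear_combination (-1) * h.2)
        rw [this]
      · exfalso
        have := key i j (-1) (Or.inr rfl) (by linear_combination (-1) * h.1)
          (by linear_combination (-1) * h.2)
        subst this
        obtain ⟨u, v, huv⟩ := row_coprime c i
        apply h20
        linear_combination (-2) * huv - u * h.1 - v * h.2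
      · exfalso
        have := key i j (-1) (Or.inr rfl) (by linear_combination h.1)
          (by linear_combination h.2)
        subst this
        obtain ⟨u, v, huv⟩ := row_coprime c i
        apply h20
        linear_combination (-2) * huv + u * h.1 + v * h.2
      · have := key i j 1 (Or.inl rfl) (by linear_combination h.1) (by linear_combination h.2)
        rw [this]
    have hcard := Nat.card_le_card_of_injective f hf
    rw [Nat.card_prod, Nat.card_fin, Nat.card_eq_fintype_card, Fintype.card_bool] at hcard
    omega

/-- For every `N ≥ 2` the equation over `ℤ/Nℤ` has only finitely many irreducible solutions, and the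
size of each of them is at most `4` or at most half of the number of pairs `(a, b)` of elements of
`ℤ/Nℤ` which generate the unit ideal. -/
theorem result (N : ℕ) (hN : 2 ≤ N) :
    {c : List (ZMod N) | IsIrreducible c}.Finite ∧
    ∀ c : List (ZMod N), IsIrreducible c →
      c.length ≤ 4 ∨
        2 * c.length ≤ Nat.card {v : ZMod N × ZMod N // IsCoprime v.1 v.2} := by
  haveI : NeZero N := ⟨by omega⟩
  refine ⟨?_, length_le N hN⟩
  refine (List.finite_length_le (ZMod N)
    (4 + Nat.card {v : ZMod N × ZMod N // IsCoprime v.1 v.2})).subset ?_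
  intro c hc
  have := length_le N hN c hc
  simp only [Set.mem_setOf_eq]
  omega

end Pool.Agent.Results.MP_762e7e_co.FinitelyMany
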